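import Pool.Agent.Helper85.PCP.Stmts

/-!
# PCP(4): module INI (the initial phase of the item machine)
-/

namespace PCP4

theorem ini_pops (m : ℕ) (tr : ℕ → List Bool) (Q : List Bool) (φ : ℕ) :
    ∀ k : ℕ, (istep m tr)^[k] (φ + k, List.replicate k false ++ Q) = (φ, Q) := by
  intro k
  induction k with
  | zero => simp
  | succ k ih =>
    rw [Function.iterate_succ_apply]
    have h : istep m tr (φ + (k + 1), List.replicate (k + 1) false ++ Q) =
        (φ + k, List.replicate k false ++ Q) := by
      rw [List.replicate_succ, List.cons_append]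
      show (if φ + (k + 1) = 0 then (m - 1, (List.replicate k false ++ Q) ++ [false])
        else (φ + (k + 1) - 1, List.replicate k false ++ Q)) = _
      rw [if_neg (by omega)]
      rfl
    rw [h]
    exact ih

theorem st_INI (h1 : ST_WINI) : ST_INI := by
  intro V s A P D' a b hok
  obtain ⟨-, -, -, h4, -⟩ := h1 V s A P D' a b hok
  have hA := hok.hA
  have hV := hok.hV
  have hm : 3 * (4 * A + 2) ≤ V * nu A := Nat.mul_le_mul_right _ hV
  have htr : (trk V s A P D' a b 0).tail =
      List.replicate (V * nu A - 2 * A) false ++ (letters A (Winit V s A D' a b)).dropLast := by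
    rw [trk, if_neg (by norm_num), if_pos rfl, List.tail_cons]
  rw [htr]
  obtain ⟨k, hk⟩ : ∃ k, V * nu A - 2 * A = k + 1 := ⟨V * nu A - 2 * A - 1, by omega⟩
  have hk2 : V * nu A - 1 = 2 * A + k := by omega
  rw [hk, Function.iterate_succ_apply]
  have h0 : istep (V * nu A) (trk V s A P D' a b)
      (0, List.replicate (k + 1) false ++ (letters A (Winit V s A D' a b)).dropLast) =
      (2 * A + k, List.replicate k false ++ letters A (Winit V s A D' a b)) := by
    rw [List.replicate_succ, List.cons_append]
    show (V * nu A - 1, (List.replicate k false ++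
      (letters A (Winit V s A D' a b)).dropLast) ++ [false]) = _
    rw [hk2, List.append_assoc, ← h4]
  rw [h0]
  exact ini_pops _ _ _ _ k

end PCP4
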